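import Mathlib
import Pool.Agent.MP_aa8e9f_co.H85.Main

set_option autoImplicit false

namespace Pool.Agent.MP_aa8e9f_co.H93

open SimpleGraph

universe u

/-- index form of chordlessness -/
def Ind {W : Type} {K : SimpleGraph W} {x y : W} (p : K.Walk x y) : Prop :=
  ∀ i j : ℕ, i + 1 < j → j ≤ p.length → ¬ K.Adj (p.getVert i) (p.getVert j)

lemma ind_of_chordless {W : Type} {K : SimpleGraph W} {x y : W} {p : K.Walk x y}
    (hp : p.IsPath) (h : p.IsChordless) : Ind p := by
  intro i j hij hj hadj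
  obtain ⟨k, hk, he⟩ := (Walk.mk_mem_edges_iff_exists p).1
    (h.mem_edges (p.getVert_mem_support i) (p.getVert_mem_support j) hadj)
  have inj := hp.getVert_injOn
  rcases Sym2.eq_iff.1 he with ⟨h1, h2⟩ | ⟨h1, h2⟩
  · have a1 := inj (show k ∈ {i | i ≤ p.length} from hk.le)
      (show i ∈ {i | i ≤ p.length} by simp only [Set.mem_ofPred_eq]; omega) h1
    have a2 := inj (show k + 1 ∈ {i | i ≤ p.length} from hk)
      (show j ∈ {i | i ≤ p.length} from hj) h2
    omega
  · have a1 := inj (show k ∈ {i | i ≤ p.length} from hk.le)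
      (show j ∈ {i | i ≤ p.length} from hj) h1
    have a2 := inj (show k + 1 ∈ {i | i ≤ p.length} from hk)
      (show i ∈ {i | i ≤ p.length} by simp only [Set.mem_ofPred_eq]; omega) h2
    omega

lemma chordless_of_ind {W : Type} {K : SimpleGraph W} {x y : W} {p : K.Walk x y}
    (h : Ind p) : p.IsChordless := by
  rw [Walk.isChordless_iff_forall_mem_edges]
  intro a b ha hb hadj
  obtain ⟨i, rfl, hi⟩ := Walk.mem_support_iff_exists_getVert.1 ha
  obtain ⟨j, rfl, hj⟩ := Walk.mem_support_iff_exists_getVert.1 hb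
  rw [Walk.mk_mem_edges_iff_exists]
  rcases lt_trichotomy i j with hij | rfl | hij
  · have : j = i + 1 := by
      by_contra hne
      exact h i j (by omega) hj hadj
    subst this
    exact ⟨i, by omega, rfl⟩
  · exact absurd hadj K.irrefl
  · have : i = j + 1 := by
      by_contra hne
      exact h j i (by omega) hi hadj.symm
    subst this
    exact ⟨j, by omega, Sym2.eq_swap⟩

/-- an even pair inside `T` -/
def EP {W : Type} (K : SimpleGraph W) (T : Set W) : Prop :=
  ∃ x y, x ∈ T ∧ y ∈ T ∧ x ≠ y ∧ ¬ K.Adj x y ∧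
    ∀ p : K.Walk x y, p.IsPath → (∀ v ∈ p.support, v ∈ T) → Ind p → Even p.length

lemma EP.pull {W W' : Type} {H : SimpleGraph W} {K : SimpleGraph W'} (φ : H ↪g K)
    (h : EP K (Set.range φ)) : EP H Set.univ := by
  obtain ⟨_, _, ⟨x, rfl⟩, ⟨y, rfl⟩, hne, hadj, hp⟩ := h
  refine ⟨x, y, trivial, trivial, fun h => hne (congrArg φ h),
    fun h => hadj (φ.map_adj_iff.2 h), fun p p1 _ p3 => ?_⟩
  have := hp (p.map φ.toHom) (p1.map φ.injective) (by
    intro v hv
    rw [Walk.support_map] at hv
    obtain ⟨w, -, rfl⟩ := List.mem_map.1 hv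
    exact ⟨w, rfl⟩) (by
    intro i j hij hj hadj
    rw [Walk.getVert_map, Walk.getVert_map] at hadj
    exact p3 i j hij (by simpa using hj) (φ.map_adj_iff.1 hadj))
  simpa using this

lemma EP_univ_iff {W : Type} (H : SimpleGraph W) : EP H Set.univ ↔
    ∃ x y, x ≠ y ∧ ¬ H.Adj x y ∧
      ∀ p : H.Walk x y, p.IsPath → p.IsChordless → Even p.length := by
  constructor
  · rintro ⟨x, y, -, -, h1, h2, h3⟩
    exact ⟨x, y, h1, h2, fun p p1 p2 => h3 p p1 (fun _ _ => trivial) (ind_of_chordless p1 p2)⟩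
  · rintro ⟨x, y, h1, h2, h3⟩
    exact ⟨x, y, trivial, trivial, h1, h2, fun p p1 _ p2 => h3 p p1 (chordless_of_ind p2)⟩

lemma good_iff (A : Finset H85.V) : H85.Good A ↔ EP H85.G A ∨ EP H85.Gᶜ A := by
  constructor
  · rintro ⟨K, rfl | rfl, h⟩
    · exact Or.inl h
    · exact Or.inr h
  · rintro (h | h)
    · exact ⟨_, Or.inl rfl, h⟩
    · exact ⟨_, Or.inr rfl, h⟩

/-- every graph on at least two vertices that embeds properly has an even pair, or its complement
has one -/
lemma proper {W : Type} (H : SimpleGraph W) (φ : H ↪g H85.G) (h2 : Nontrivial W)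
    (hs : Set.range φ ≠ Set.univ) : EP H Set.univ ∨ EP Hᶜ Set.univ := by
  classical
  let A : Finset H85.V := Finset.univ.filter fun v => v ∈ Set.range φ
  have hA : (A : Set H85.V) = Set.range φ := by ext v; simp [A]
  have h1 : A ≠ Finset.univ := fun h => hs (by rw [← hA, h, Finset.coe_univ])
  have h3 : 2 ≤ A.card := by
    obtain ⟨x, y, hxy⟩ := h2
    exact Finset.one_lt_card.2 ⟨φ x, by simp [A], φ y, by simp [A], fun h => hxy (φ.injective h)⟩
  rcases (good_iff A).1 (H85.good_proper A h1 h3) with h | h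
  · exact Or.inl (EP.pull φ (hA ▸ h))
  · refine Or.inr (EP.pull (Embedding.complEquiv φ) ?_)
    have : Set.range (Embedding.complEquiv φ) = Set.range φ := rfl
    rw [this, ← hA]
    exact h

lemma whole : ¬ (EP (H85.G.induce Set.univ) Set.univ ∨ EP (H85.G.induce Set.univ)ᶜ Set.univ) := by
  intro h
  apply H85.not_good
  rw [good_iff, Finset.coe_univ]
  let φ : H85.G ↪g H85.G.induce Set.univ := (induceUnivIso H85.G).symm.toEmbedding
  have hφ : Set.range φ = Set.univ := (induceUnivIso H85.G).symm.surjective.range_eq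
  rcases h with h | h
  · exact Or.inl (EP.pull φ (hφ ▸ h))
  · refine Or.inr (EP.pull (Embedding.complEquiv φ) ?_)
    have : Set.range (Embedding.complEquiv φ) = Set.range φ := rfl
    rw [this, hφ]
    exact h

end Pool.Agent.MP_aa8e9f_co.H93
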